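import Pool.Agent.H41.CZ.Defs

set_option linter.unusedVariables false

open Ordinal Order Set
open scoped ZFSet

namespace CZ

open SF

namespace H58CMP

/-- the metric on the elements of `X` -/
noncomputable def met (X : V) (d : V → V → ℝ) (h0 : ∀ x ∈ X, d x x = 0)
    (h1 : ∀ x ∈ X, ∀ y ∈ X, d x y = 0 → x = y) (h2 : ∀ x ∈ X, ∀ y ∈ X, d x y = d y x)
    (h3 : ∀ x ∈ X, ∀ y ∈ X, ∀ z ∈ X, d x z ≤ d x y + d y z) : MetricSpace {x : V // x ∈ X} where
  dist x y := d x.1 y.1
  dist_self x := h0 x.1 x.2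
  dist_comm x y := h2 x.1 x.2 y.1 y.2
  dist_triangle x y z := h3 x.1 x.2 y.1 y.2 z.1 z.2
  eq_of_dist_eq_zero := by
    intro x y h
    exact Subtype.ext (h1 x.1 x.2 y.1 y.2 h)

/-- the balls -/
noncomputable def ball (X L : V) (k : ℕ) (x : V) : V := X.sep fun y => qr x y 1 (k + 1) ∈ L

/-- the family of the balls -/
noncomputable def balls (X L : V) (k : ℕ) : V := imS X fun x => ball X L k x

theorem balls_mem {M : V → Prop} (hM : ZFm M) {X L : V} (hX : M X) (hL : M L) (k : ℕ) :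
    M (balls X L k) := by
  have h1 : _root_.UZ.DN M (fun u => qr (u 1) (u 0) 1 (k + 1) ∈ L) := by
    refine UZ.DN.mem hM ?_ (UZ.TN.cst hL)
    unfold qr
    exact UZ.TN.pair hM (UZ.TN.var hM 1) (UZ.TN.pair hM (UZ.TN.var hM 0)
      (UZ.TN.pair hM (UZ.TN.nS hM 1) (UZ.TN.nS hM (k + 1))))
  have h2 : _root_.UZ.TN M (fun u => X.sep fun y => qr (u 0) y 1 (k + 1) ∈ L) :=
    UZ.TN.sep hM h1 (UZ.TN.cst hX)
  have h3 : _root_.UZ.TN M (fun _ => imS X fun x => X.sep fun y => qr x y 1 (k + 1) ∈ L) :=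
    UZ.TN.image hM (UZ.TN.cst hX) h2
  exact UZ.TN.mem hM h3 (u := fun _ => om) (fun _ => hM.inf)

end H58CMP

open H58CMP in
theorem pf_CMP : T_CMP := by
  intro M X d hZF hmet hcomp hne
  have hM : ZFm M := hZF.toZFm
  obtain ⟨L, hLM, hL⟩ := hmet.lt
  letI inst : MetricSpace {x : V // x ∈ X} := met X d hmet.self hmet.eq hmet.symm hmet.tri
  have hdist : ∀ x y : {x : V // x ∈ X}, dist x y = d x.1 y.1 := fun x y => rfl
  have hball : ∀ k x, x ∈ X → ∀ y, y ∈ ball X L k x ↔ y ∈ X ∧ ((k : ℝ) + 1) * d x y < 1 := by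
    intro k x hx y
    unfold ball
    rw [ZFSet.mem_sep]
    refine and_congr_right fun hy => ?_
    rw [hL x hx y hy 1 (k + 1)]
    push_cast
    rfl
  have htot : TotallyBounded (Set.univ : Set {x : V // x ∈ X}) := by
    rw [Metric.totallyBounded_iff]
    intro ε hε
    obtain ⟨k, hk⟩ := exists_nat_one_div_lt hε
    have hkpos : (0 : ℝ) < (k : ℝ) + 1 := by positivity
    obtain ⟨F, hF1, hF2, hF3⟩ := hcomp (balls X L k) (balls_mem hM hmet.mem hLM k) (by
      intro U hU
      unfold balls at hU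
      obtain ⟨x, hx, rfl⟩ := mem_imS.1 hU
      refine ⟨fun y hy => ((hball k x hx y).1 hy).1, ?_⟩
      intro z hz
      obtain ⟨hzX, hz1⟩ := (hball k x hx z).1 hz
      refine ⟨(1 - ((k : ℝ) + 1) * d x z) / ((k : ℝ) + 1), ?_, ?_⟩
      · exact div_pos (by linarith) hkpos
      · intro y hy hzy
        rw [hball k x hx y]
        refine ⟨hy, ?_⟩
        have h1 := hmet.tri x hx z hzX y hy
        have h2 : ((k : ℝ) + 1) * d z y < 1 - ((k : ℝ) + 1) * d x z := by
          rw [lt_div_iff₀ hkpos] at hzy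
          linarith
        have h3 : ((k : ℝ) + 1) * d x y ≤ ((k : ℝ) + 1) * (d x z + d z y) :=
          mul_le_mul_of_nonneg_left h1 hkpos.le
        linarith) (by
      intro x hx
      refine ⟨ball X L k x, mem_imS.2 ⟨x, hx, rfl⟩, ?_⟩
      rw [hball k x hx x]
      refine ⟨hx, ?_⟩
      rw [hmet.self x hx, mul_zero]
      exact one_pos)
    have hch : ∀ U : {U : V // U ∈ F}, ∃ x : {x : V // x ∈ X}, ball X L k x.1 = U.1 := by
      intro U
      have h1 := hF1 U.2
      unfold balls at h1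
      obtain ⟨x, hx, h2⟩ := mem_imS.1 h1
      exact ⟨⟨x, hx⟩, h2⟩
    choose c hc using hch
    have hfin : Finite {U : V // U ∈ F} := hF2.to_subtype
    refine ⟨Set.range c, Set.finite_range c, ?_⟩
    intro y _
    obtain ⟨U, hU, hyU⟩ := hF3 y.1 y.2
    rw [Set.mem_iUnion₂]
    refine ⟨c ⟨U, hU⟩, ⟨⟨U, hU⟩, rfl⟩, ?_⟩
    rw [Metric.mem_ball, dist_comm, hdist]
    have h1 : y.1 ∈ ball X L k (c ⟨U, hU⟩).1 := by rw [hc ⟨U, hU⟩]; exact hyU
    have h2 := ((hball k _ (c ⟨U, hU⟩).2 y.1).1 h1).2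
    have h3 : d (c ⟨U, hU⟩).1 y.1 < 1 / ((k : ℝ) + 1) := by
      rw [lt_div_iff₀ hkpos]
      linarith
    exact h3.trans hk
  let Y : Type 1 := UniformSpace.Completion {x : V // x ∈ X}
  have hcompact : CompactSpace Y := by
    have h1 : TotallyBounded
        ((fun x : {x : V // x ∈ X} => (x : UniformSpace.Completion {x : V // x ∈ X})) ''
          Set.univ) :=
      htot.image (UniformSpace.Completion.uniformContinuous_coe _)
    have h2 := h1.closure
    have h3 : closure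
        ((fun x : {x : V // x ∈ X} => (x : UniformSpace.Completion {x : V // x ∈ X})) ''
          Set.univ) = Set.univ := by
      rw [Set.image_univ]
      exact UniformSpace.Completion.denseRange_coe.closure_range
    rw [h3] at h2
    exact ⟨h2.isCompact_of_isClosed isClosed_univ⟩
  classical
  obtain ⟨x₀, hx₀⟩ := hne
  let ι : V → Y := fun x => if h : x ∈ X then
    ((⟨x, h⟩ : {x : V // x ∈ X}) : UniformSpace.Completion {x : V // x ∈ X})
    else ((⟨x₀, hx₀⟩ : {x : V // x ∈ X}) : UniformSpace.Completion {x : V // x ∈ X})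
  have hι : ∀ x (hx : x ∈ X), ι x =
      ((⟨x, hx⟩ : {x : V // x ∈ X}) : UniformSpace.Completion {x : V // x ∈ X}) := by
    intro x hx
    exact dif_pos hx
  refine ⟨Y, inferInstance, hcompact, ι, ?_, ?_⟩
  · intro x hx y hy
    rw [hι x hx, hι y hy, UniformSpace.Completion.dist_eq]
    exact hdist _ _
  · intro y ε hε
    obtain ⟨x, hx⟩ := Metric.denseRange_iff.1 (UniformSpace.Completion.denseRange_coe
      (α := {x : V // x ∈ X})) y ε hε
    exact ⟨x.1, x.2, by rw [hι x.1 x.2]; exact hx⟩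

end CZ
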