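import Pool.Agent.H41.CZ.Defs

set_option linter.unusedVariables false

open Ordinal Order Set
open scoped ZFSet

namespace CZ

open SF

namespace H58RK

theorem mem_block {P L s w : V} (i : ℕ) :
    ZFSet.pair s w ∈ (ZFSet.prod ({nS i} : V) P).sep (fun z => snd z ∈ L) ↔
      s = nS i ∧ w ∈ P ∧ w ∈ L := by
  rw [ZFSet.mem_sep, ZFSet.pair_mem_prod, ZFSet.mem_singleton, snd_pair, and_assoc]

theorem mem_quad {X x y q : V} :
    ZFSet.pair x (ZFSet.pair y q) ∈ ZFSet.prod X (ZFSet.prod X (ZFSet.prod om om)) ↔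
      x ∈ X ∧ y ∈ X ∧ ∃ m n : ℕ, q = ZFSet.pair (nS m) (nS n) := by
  rw [ZFSet.pair_mem_prod, ZFSet.pair_mem_prod, ZFSet.mem_prod]
  constructor
  · rintro ⟨h1, h2, a, ha, b, hb, h3⟩
    obtain ⟨m, rfl⟩ := mem_om.1 ha
    obtain ⟨n, rfl⟩ := mem_om.1 hb
    exact ⟨h1, h2, m, n, h3⟩
  · rintro ⟨h1, h2, m, n, h3⟩
    exact ⟨h1, h2, nS m, mem_om.2 ⟨m, rfl⟩, nS n, mem_om.2 ⟨n, rfl⟩, h3⟩

theorem tn_block {M : V → Prop} (hM : ZFm M) {X L : V} (hX : M X) (hL : M L) (i : ℕ) :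
    _root_.UZ.TN M (fun _ => (ZFSet.prod ({nS i} : V)
      (ZFSet.prod X (ZFSet.prod X (ZFSet.prod om om)))).sep (fun z => snd z ∈ L)) := by
  have h1 : _root_.UZ.TN M (fun _ => (ZFSet.prod ({nS i} : V)
      (ZFSet.prod X (ZFSet.prod X (ZFSet.prod om om))))) :=
    UZ.TN.prod hM (UZ.TN.sing hM (UZ.TN.nS hM i))
      (UZ.TN.prod hM (UZ.TN.cst hX) (UZ.TN.prod hM (UZ.TN.cst hX)
        (UZ.TN.prod hM (UZ.TN.om hM) (UZ.TN.om hM))))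
  have h2 : _root_.UZ.DN M (fun u => snd (u 0) ∈ L) :=
    UZ.DN.mem hM (UZ.TN.snd hM (UZ.TN.var hM 0)) (UZ.TN.cst hL)
  exact UZ.TN.sep hM h2 h1

end H58RK

open H58RK in
theorem pf_RK : T_RK := by
  intro M X d hM hmet
  obtain ⟨L, hLM, hL⟩ := hmet.lt
  obtain ⟨U, hUM, hU⟩ := hmet.gt
  have hX := hmet.mem
  set P : V := ZFSet.prod X (ZFSet.prod X (ZFSet.prod om om)) with hP
  set R : V := (ZFSet.prod ({nS 0} : V) P).sep (fun z => snd z ∈ L) ∪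
    (ZFSet.prod ({nS 1} : V) P).sep (fun z => snd z ∈ U) with hR
  have h01 : nS 0 ≠ nS 1 := fun h => by
    have := nS_inj.1 h
    exact absurd this (by norm_num)
  have hmem : ∀ s w : V, ZFSet.pair s w ∈ R ↔
      (s = nS 0 ∧ w ∈ P ∧ w ∈ L) ∨ (s = nS 1 ∧ w ∈ P ∧ w ∈ U) := by
    intro s w
    rw [hR, ZFSet.mem_union, mem_block, mem_block]
  refine ⟨R, ?_, ?_, ?_, ?_⟩
  · have h := UZ.TN.union hM (tn_block hM hX hLM 0) (tn_block hM hX hUM 1)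
    exact UZ.TN.mem hM h (u := fun _ => om) (fun _ => hM.inf)
  · intro x y q
    rw [hmem, hP, mem_quad]
    constructor
    · rintro (⟨-, ⟨h1, h2, m, n, rfl⟩, h3⟩ | ⟨h0, -⟩)
      · exact ⟨h1, h2, m, n, rfl, (hL x h1 y h2 m n).1 h3⟩
      · exact absurd h0 h01
    · rintro ⟨h1, h2, m, n, rfl, h3⟩
      exact Or.inl ⟨rfl, ⟨h1, h2, m, n, rfl⟩, (hL x h1 y h2 m n).2 h3⟩
  · intro x y q
    rw [hmem, hP, mem_quad]
    constructor
    · rintro (⟨h0, -⟩ | ⟨-, ⟨h1, h2, m, n, rfl⟩, h3⟩)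
      · exact absurd h0.symm h01
      · exact ⟨h1, h2, m, n, rfl, (hU x h1 y h2 m n).1 h3⟩
    · rintro ⟨h1, h2, m, n, rfl, h3⟩
      exact Or.inr ⟨rfl, ⟨h1, h2, m, n, rfl⟩, (hU x h1 y h2 m n).2 h3⟩
  · intro s w h
    rcases (hmem s w).1 h with h | h
    · exact Or.inl h.1
    · exact Or.inr h.1

end CZ
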